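import Pool.Agent.X264.EQ.Main

/-!
# Equidistribution of special points: cofinal classes of Shimura varieties suffice
-/

set_option autoImplicit false

open Pool.Agent.X264.EQ

namespace Pool.Agent.Results.MP_9177b7_ag.CofinalClasses

universe u

/-- **Products and covers.** Equidistribution of the Galois orbits of generic sequences of special
points on (a finite cover of) a product `S × R` implies it on `S`. Hence the conjecture for all Shimura
varieties follows from the conjecture for any class of Shimura varieties containing, for every `S`, a
finite cover of some product `S × R`; for example all those of dimension at least `N` with level
structure finer than a given one. -/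
theorem result (T : Sys.{u}) (hT : T.IsKnown) (C : T.Va → Prop) (hC : T.IsCofinal C) :
    (∀ S, T.Equidistribution S) ↔ ∀ S, C S → T.Equidistribution S :=
  Sys.main hT C hC

end Pool.Agent.Results.MP_9177b7_ag.CofinalClasses
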