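import Pool.Agent.X208.GS.More

/-! MP_9177b7_ag (Q1, partial): products with one more factor, few exceptional special points. -/

set_option autoImplicit false

namespace Pool.Agent.Results.MP_9177b7_ag.OneMoreFactor

open Pool.Agent.X208.GS

theorem result : OneMoreFactor := oneMoreFactor

end Pool.Agent.Results.MP_9177b7_ag.OneMoreFactor
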