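import Pool.Agent.X208.GS.Fin

/-! MP_9177b7_ag (Q1, partial): the orbits of subgroups (the images of the Galois group) in toric packets. Exact
criteria for almost all orbits and almost all tuples, conditions for all orbits, products. -/

set_option autoImplicit false

namespace Pool.Agent.Results.MP_9177b7_ag.PacketsAndOrbits

open Pool.Agent.X208.GS

theorem result : Packets ∧ Criterion ∧ Several ∧ Small ∧ Products :=
  ⟨packets, criterion, several, small, products'⟩

end Pool.Agent.Results.MP_9177b7_ag.PacketsAndOrbits
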